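import Mathlib
import Pool.Agent.H362R2.CM.Shapes

/-!
The shapes of the tuples of primes that occur infinitely often are dense: every finite set of reals
is, up to a homothety and an arbitrarily small relative error, the set of all primes of an interval
`[n + min H, n + max H]` with a fixed `H`, for infinitely many `n`.
-/

namespace Pool.Agent.Results.MP_dddec0_nt.DenseShapes

theorem result : ∀ (k : ℕ), 1 ≤ k → ∀ (x : Fin k → ℝ) (δ : ℝ), 0 < δ →
    ∃ (H : Finset ℕ) (lam mu : ℝ), 0 < lam ∧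
      (∀ h ∈ H, ∃ j, |(h : ℝ) - (lam * x j + mu)| ≤ δ * lam) ∧
      (∀ j, ∃ h ∈ H, |(h : ℝ) - (lam * x j + mu)| ≤ δ * lam) ∧
      {n : ℕ | ∀ t, (∃ a ∈ H, a ≤ t) → (∃ b ∈ H, t ≤ b) →
        ((n + t).Prime ↔ t ∈ H)}.Infinite :=
  Pool.Agent.H362R2.CM.dense_shapes

end Pool.Agent.Results.MP_dddec0_nt.DenseShapes
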