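import Mathlib
import Pool.Agent.H447R3.PF.Base

/-! Prescribed numbers of prime factors of the odd numbers `n, n + 2, n + 4, n + 6`. -/

theorem Pool.Agent.Results.MP_dddec0_nt.PrimeFactorCounts.result :
    ∃ r0 R : ℕ, ∀ r : Fin 4 → ℕ, (∀ i, r0 ≤ r i) →
      ∃ C : ℕ, {n : ℕ | Odd n ∧ ∀ i : Fin 4, (n + 2 * i).primeFactors.card = r i ∧
        ∃ c s : ℕ, n + 2 * i = c * s ∧ c ≤ C ∧
          Squarefree s ∧ ∀ p : ℕ, p.Prime → p ∣ s → n ≤ p ^ R}.Infinite :=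
  Pool.Agent.H447R3.PF.odd_infinite 4
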