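import Pool.Agent.H661R3.OP.Final

open Finset

namespace Pool.Agent.Results.MP_dddec0_nt.RoughTripletSigns

/-- **Completely multiplicative signs at rough triplets.**
Let `a` be `2` or `4`. There is `q ≥ 1` such that for every `ε > 0` there is `δ > 0` such that for all large
`x` and every completely multiplicative function `f` with values `1` and `-1` for which some prime
`p ≡ 1 (mod q)` in the interval `(x ^ δ, x ^ (3 δ / 2)]` has `f p = -1`, each of the two signs `s` satisfies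
`f (n) f (n + a) f (n + 6) = s` for at least `x ^ (1 - ε)` integers `n ≤ x` such that `n`, `n + a`, `n + 6`
have no prime factor `≤ x ^ δ`. (For the Liouville function the condition on `f` holds for all large `x`.) -/
theorem result (a : ℕ) (ha : a = 2 ∨ a = 4) :
    ∃ q : ℕ, 0 < q ∧ ∀ ε : ℝ, 0 < ε → ∃ δ : ℝ, 0 < δ ∧ ∃ x₀ : ℝ, ∀ x : ℝ, x₀ ≤ x →
    ∀ f : ℕ → ℤ, (∀ n, n ≠ 0 → f n = 1 ∨ f n = -1) →
    (∀ m n, m ≠ 0 → n ≠ 0 → f (m * n) = f m * f n) →
    (∃ p : ℕ, p.Prime ∧ x ^ δ < p ∧ (p : ℝ) ≤ x ^ (3 / 2 * δ) ∧ p ≡ 1 [MOD q] ∧ f p = -1) →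
    ∀ s : ℤ, (s = 1 ∨ s = -1) →
    x ^ (1 - ε) ≤ (({n : ℕ | 0 < n ∧ (n : ℝ) ≤ x ∧
      (∀ h ∈ ({0, a, 6} : Finset ℕ), ∀ p : ℕ, p.Prime → p ∣ n + h → x ^ δ < p) ∧
      f n * f (n + a) * f (n + 6) = s}.ncard : ℕ) : ℝ) := by
  have hadm : ∀ p : ℕ, p.Prime → ∃ n : ℤ, ∀ h ∈ ({0, a, 6} : Finset ℕ), ¬ (p : ℤ) ∣ n + h := by
    rcases ha with rfl | rfl
    all_goals
      refine Pool.Agent.H661R3.OP.adm_of_small _ 4 (by decide) ?_
      intro p hp hp5
      have h2 := hp.two_le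
      interval_cases p
      · exact ⟨1, by decide⟩
    · exact ⟨2, by decide⟩
    · exact ⟨1, by decide⟩
  have hcard : ({0, a, 6} : Finset ℕ).card = 3 := by
    rcases ha with rfl | rfl <;> decide
  obtain ⟨q, hq, h⟩ := Pool.Agent.H661R3.OP.multNat Pool.Agent.H661R3.OP.genf {0, a, 6} hadm
    {0, a, 6} (Finset.Subset.refl _) (by rw [hcard]; decide)
  refine ⟨q, hq, fun ε hε => ?_⟩
  obtain ⟨δ, hδ, x₀, h⟩ := h ε hε
  refine ⟨δ, hδ, x₀, fun x hx f hf1 hf2 hp s hs => ?_⟩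
  have key := h x hx f hf1 hf2 hp s hs
  have hprod : ∀ n : ℕ, ∏ h ∈ ({0, a, 6} : Finset ℕ), f (n + h) = f n * f (n + a) * f (n + 6) := by
    intro n
    rcases ha with rfl | rfl
    all_goals
      rw [Finset.prod_insert (by decide), Finset.prod_insert (by decide), Finset.prod_singleton,
        add_zero, mul_assoc]
  simp only [hprod] at key
  exact key

end Pool.Agent.Results.MP_dddec0_nt.RoughTripletSigns
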