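import Mathlib
import Pool.Agent.H358R5.Gaps

/-! Every admissible set of 3560 integers contains a triple of shifts realised by three consecutive primes at least
`x^(1-ε)` times, for arbitrarily large `x`. -/

theorem Pool.Agent.Results.MP_dddec0_nt.TriplesInLargeSets.result :
    ∀ H : Finset ℤ, 3560 ≤ H.card →
      (∀ p : ℕ, p.Prime → ∃ r : ℤ, ∀ h ∈ H, ¬ (p : ℤ) ∣ r + h) →
      ∃ S : Finset ℤ, S ⊆ H ∧ S.card = 3 ∧ ∀ ε : ℝ, 0 < ε → ∃ᶠ x : ℝ in Filter.atTop,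
        x ^ (1 - ε) ≤ (Set.ncard {n : ℕ | (n : ℝ) ≤ x ∧ (∀ s ∈ S, ∃ p : ℕ, p.Prime ∧ (p : ℤ) = n + s) ∧
          ∀ p : ℕ, p.Prime → (∃ s ∈ S, ∃ t ∈ S, (n : ℤ) + s ≤ p ∧ (p : ℤ) ≤ n + t) →
            ∃ s ∈ S, (p : ℤ) = n + s} : ℝ) :=
  fun H hK hadm => Pool.Agent.H358R5.pattern3 H hK hadm
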